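import Pool.Agent.Helper31.LQ.Goals

set_option autoImplicit false

open MeasureTheory Set
open scoped ENNReal Matrix

noncomputable section

namespace Pool.Agent.Helper88.LQ

open Pool.Agent.Helper31.LQ

theorem pr_sub {n : ℕ} (a b : Fin (n + 1) → ℝ) : pr (a - b) = pr a - pr b := by
  funext l
  simp only [pr, Pi.sub_apply]
  ring

theorem li_sub {n : ℕ} (x y : Fin n → ℝ) : li (x - y) = li x - li y := by
  funext l
  refine Fin.lastCases ?_ (fun i => ?_) l
  · simp [li]
  · simp [li]

theorem ell_sub {n : ℕ} (j : Fin (n + 1)) (a b : Fin (n + 1) → ℝ) :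
    ell j (a - b) = ell j a - ell j b := by
  simp only [ell, Pi.sub_apply, Finset.sum_sub_distrib]
  ring

theorem psi_congr {n : ℕ} (K : Set (Fin n → ℝ)) (j : Fin (n + 1)) {a b : Fin (n + 1) → ℝ}
    (h1 : pr a = pr b) (h2 : ell j a = ell j b) : psi K j a = psi K j b := by
  simp only [psi, h1, h2]

theorem ins_add {n : ℕ} (o : Fin (n + 1)) (s t : Fin n → ℝ) :
    (o.insertNth (α := fun _ => ℝ) 0 (s + t) : Fin (n + 1) → ℝ) =
      o.insertNth (α := fun _ => ℝ) 0 s + o.insertNth (α := fun _ => ℝ) 0 t := by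
  funext l
  refine Fin.succAboveCases o ?_ (fun i => ?_) l
  · simp
  · simp

theorem ins_smul {n : ℕ} (o : Fin (n + 1)) (c : ℝ) (t : Fin n → ℝ) :
    (o.insertNth (α := fun _ => ℝ) 0 (c • t) : Fin (n + 1) → ℝ) =
      c • (o.insertNth (α := fun _ => ℝ) 0 t : Fin (n + 1) → ℝ) := by
  funext l
  refine Fin.succAboveCases o ?_ (fun i => ?_) l
  · simp
  · simp

theorem ins_cont {n : ℕ} (o : Fin (n + 1)) :
    Continuous fun t : Fin n → ℝ => (o.insertNth (α := fun _ => ℝ) 0 t : Fin (n + 1) → ℝ) := by
  refine continuous_pi fun l => ?_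
  refine Fin.succAboveCases o ?_ (fun i => ?_) l
  · simp only [Fin.insertNth_apply_same]
    exact continuous_const
  · simp only [Fin.insertNth_apply_succAbove]
    exact continuous_apply i

theorem sl_ins {n : ℕ} (o : Fin (n + 1)) {P : (Fin (n + 1) → ℝ) → ℝ} (h : SL (n + 1) P) :
    SL n (fun b => P (o.insertNth (α := fun _ => ℝ) 0 b)) where
  cont := h.cont.comp (ins_cont o)
  nn := fun t => h.nn _
  add := fun s t => by
    simp only [ins_add]
    exact h.add _ _
  hom := fun c hc t => by
    simp only [ins_smul]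
    exact h.hom c hc _

theorem Th_nonneg {n : ℕ} (o : Fin (n + 1)) {P : (Fin (n + 1) → ℝ) → ℝ} (h : SL (n + 1) P) :
    0 ≤ Th o P := by
  unfold Th Ex
  exact integral_nonneg fun t => mul_nonneg (Real.exp_pos _).le (h.nn _)

theorem emb_nonneg {n d : ℕ} (π : Equiv.Perm (Fin (n + 1))) {t : Fin d → ℝ} (ht : t ∈ pos d)
    (o : Fin (n + 1)) : 0 ≤ emb d π t o := by
  unfold emb
  split_ifs with h
  · exact (ht _).le
  · exact le_rfl

theorem emb_out {n d : ℕ} (π : Equiv.Perm (Fin (n + 1))) (t : Fin d → ℝ)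
    {o : Fin (n + 1)} (h : d ≤ (π.symm o).val) : emb d π t o = 0 := by
  unfold emb
  rw [dif_neg (not_lt.2 h)]

theorem gPWX (hCO : CO) (hKPF : KPF) (hKER : KER) (hPSI : PSI) (hX5 : X5) : PWX := by
  intro n d hd hdn R hR
  obtain ⟨M₀, hM₀, hker⟩ := hKER n d hd hdn R hR
  obtain ⟨C₁, hC₁, hpsi⟩ := hPSI n (by omega)
  obtain ⟨C₅, hC₅, hx5⟩ := hX5 n
  have hnC : 0 ≤ C₁ * (n * M₀) := mul_nonneg hC₁ (mul_nonneg (Nat.cast_nonneg n) hM₀)
  have hMC : 0 ≤ (1 + 4 * M₀) * C₅ := mul_nonneg (by linarith) hC₅
  refine ⟨1 + 4 * M₀, (1 + 4 * M₀) + (1 + C₁ * (n * M₀)) + (1 + 4 * M₀) * C₅, by linarith,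
    by linarith, ?_⟩
  intro Y hY π hπ K τ hK t ht x hx
  obtain ⟨-, -, -, hfam, hbd, hbd2, hell⟩ := hpsi K τ hK
  obtain ⟨hco1, hco2, -, -, -, -, -, -, hco9, hco10, hco11, -, -⟩ := hCO n d Y
  obtain ⟨hk1, hk2, hk3, hk4, hk5⟩ := hKPF n d hd hdn.le Y π hπ.1
  have hk5 := hk5 hπ
  set e : Fin (n + 1) → ℝ := emb d π t with he
  set T : ℝ := ∑ a, t a with hT
  have hT0 : 0 < T := by
    haveI : Nonempty (Fin d) := ⟨⟨0, hd⟩⟩
    exact Finset.sum_pos (fun a _ => ht a) Finset.univ_nonempty
  have heT : ∑ o, e o = T := hco11 π t (by omega)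
  have hkT : ∑ o, kp Y π o * ell o (li x) = T := by
    rw [← hk4 x, hx]
    exact hk1 t
  set u : ℝ := gauge K x - T with hu
  have hpsix : ∀ o, psi K o (li x) = gauge K x - ell o (li x) := by
    intro o
    simp only [psi, hco1]
  have hsum : ∑ o, kp Y π o * psi K o (li x) = u := by
    have : ∀ o, kp Y π o * psi K o (li x) =
        kp Y π o * gauge K x - kp Y π o * ell o (li x) := by
      intro o
      rw [hpsix]
      ring
    simp only [this, Finset.sum_sub_distrib, ← Finset.sum_mul, hk3, hkT]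
    rw [one_mul]
  have hu0 : 0 ≤ u := by
    rw [← hsum]
    exact Finset.sum_nonneg fun o _ => mul_nonneg (hk5 o) ((hfam.sl o).nn _)
  have hkle : ∀ o, kp Y π o ≤ 1 := by
    intro o
    rw [← hk3]
    exact Finset.single_le_sum (f := fun o => kp Y π o) (fun p _ => hk5 p) (Finset.mem_univ o)
  -- the vector `w`
  set w : Fin n → ℝ := pr e - x with hw
  have hellw : ∀ o, ell o (li w) = ell o e - ell o (li x) := by
    intro o
    rw [hw, li_sub, ell_sub, hco10]
  have helle : ∀ o : Fin (n + 1), d ≤ (π.symm o).val → ell o e = T := by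
    intro o ho
    unfold ell
    rw [heT, he, emb_out π t ho]
    ring
  have hlinw : lin Y w = 0 := by
    funext c
    have h1 := congrFun hx c
    simp only [lin] at h1
    simp only [lin, hw, Pi.sub_apply, Pi.zero_apply, sub_mul, Finset.sum_sub_distrib]
    rw [h1]
    ring
  have hkw : ∀ o : Fin (n + 1), d ≤ (π.symm o).val → kp Y π o * |ell o (li w)| ≤ u := by
    intro o ho
    rw [hellw, helle o ho]
    have hz : ∑ p, kp Y π p * (T - ell p (li x)) = 0 := by
      simp only [mul_sub, Finset.sum_sub_distrib, ← Finset.sum_mul, hk3, hkT]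
      ring
    have hlow : ∀ p, -(kp Y π p * u) ≤ kp Y π p * (T - ell p (li x)) := by
      intro p
      have h1 : ell p (li x) ≤ gauge K x := hell p x
      have h2 : -u ≤ T - ell p (li x) := by
        rw [hu]
        linarith
      have h3 := mul_le_mul_of_nonneg_left h2 (hk5 p)
      linarith
    have hup : kp Y π o * (T - ell o (li x)) ≤ u := by
      have h1 := Finset.sum_erase_eq_sub (s := Finset.univ)
        (f := fun p => kp Y π p * (T - ell p (li x))) (Finset.mem_univ o)
      have h2 : -(∑ p ∈ Finset.univ.erase o, kp Y π p * u) ≤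
          ∑ p ∈ Finset.univ.erase o, kp Y π p * (T - ell p (li x)) := by
        rw [← Finset.sum_neg_distrib]
        exact Finset.sum_le_sum fun p _ => hlow p
      have h3 : ∑ p ∈ Finset.univ.erase o, kp Y π p * u ≤ u := by
        rw [← Finset.sum_mul]
        have h4 : ∑ p ∈ Finset.univ.erase o, kp Y π p ≤ 1 := by
          rw [← hk3]
          exact Finset.sum_le_sum_of_subset_of_nonneg (Finset.erase_subset _ _)
            fun p _ _ => hk5 p
        calc (∑ p ∈ Finset.univ.erase o, kp Y π p) * u ≤ 1 * u :=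
              mul_le_mul_of_nonneg_right h4 hu0
          _ = u := one_mul u
      have h5 : ∑ p ∈ Finset.univ.erase o, kp Y π p * (T - ell p (li x)) =
          - (kp Y π o * (T - ell o (li x))) := by
        rw [h1, hz]
        ring
      linarith
    have hlo : -u ≤ kp Y π o * (T - ell o (li x)) := by
      have h1 := hlow o
      have h2 : kp Y π o * u ≤ 1 * u := mul_le_mul_of_nonneg_right (hkle o) hu0
      linarith
    have h6 : kp Y π o * |T - ell o (li x)| = |kp Y π o * (T - ell o (li x))| := by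
      rw [abs_mul, abs_of_nonneg (hk5 o)]
    rw [h6]
    exact abs_le.2 ⟨hlo, hup⟩
  have hwl : ∀ l, |w l| ≤ M₀ * u := hker Y hY π hπ w u hu0 hlinw hkw
  -- `psi (e - ξ - s e_o) = psi (li w - s e_o)`
  have hshift : ∀ (o : Fin (n + 1)) (v : Fin (n + 1) → ℝ),
      psi K o (e - li x - v) = psi K o (li w - v) := by
    intro o v
    apply psi_congr
    · rw [pr_sub, pr_sub, pr_sub, hco1, hco1]
    · rw [ell_sub, ell_sub, ell_sub, hellw]
  have hliw : ∀ o : Fin (n + 1), |li w o| ≤ M₀ * u := by
    intro o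
    refine Fin.lastCases ?_ (fun i => ?_) o
    · simp only [li, Fin.snoc_last, abs_zero]
      exact mul_nonneg hM₀ hu0
    · simp only [li, Fin.snoc_castSucc]
      exact hwl i
  have hsumw : ∑ o, |li w o| ≤ n * (M₀ * u) := by
    rw [Fin.sum_univ_castSucc]
    simp only [li, Fin.snoc_last, Fin.snoc_castSucc, abs_zero, add_zero]
    calc ∑ i : Fin n, |w i| ≤ ∑ _i : Fin n, M₀ * u := Finset.sum_le_sum fun i _ => hwl i
      _ = n * (M₀ * u) := by simp
  -- second inequality
  have hsecond : ∑ o, kp Y π o * psi K o e ≤ (1 + C₁ * (n * M₀)) * u := by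
    have h1 : ∀ o, psi K o e ≤ psi K o (li x) + C₁ * (n * M₀) * u := by
      intro o
      have h2 : psi K o e ≤ psi K o (li x) + psi K o (e - li x - 0) := by
        have := (hfam.sl o).add (li x) (e - li x - 0)
        have h3 : li x + (e - li x - 0) = e := by
          rw [sub_zero]
          exact add_sub_cancel _ _
        rwa [h3] at this
      rw [hshift o 0, sub_zero] at h2
      have h4 : psi K o (li w) ≤ C₁ * (n * M₀) * u := by
        calc psi K o (li w) ≤ C₁ * ∑ p, |li w p| := hbd o (li w)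
          _ ≤ C₁ * (n * (M₀ * u)) := mul_le_mul_of_nonneg_left hsumw hC₁
          _ = C₁ * (n * M₀) * u := by ring
      linarith
    calc ∑ o, kp Y π o * psi K o e
        ≤ ∑ o, kp Y π o * (psi K o (li x) + C₁ * (n * M₀) * u) :=
          Finset.sum_le_sum fun o _ => mul_le_mul_of_nonneg_left (h1 o) (hk5 o)
      _ = u + 1 * (C₁ * (n * M₀) * u) := by
          simp only [mul_add, Finset.sum_add_distrib]
          rw [hsum, ← Finset.sum_mul, hk3]
      _ = (1 + C₁ * (n * M₀)) * u := by ring
  have hThs : 0 ≤ ∑ o, kp Y π o * Th o (psi K o) :=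
    Finset.sum_nonneg fun o _ => mul_nonneg (hk5 o) (Th_nonneg o (hfam.sl o))
  have hM'2 : (1 + C₁ * (n * M₀)) * u ≤
      ((1 + 4 * M₀) + (1 + C₁ * (n * M₀)) + (1 + 4 * M₀) * C₅) * u :=
    mul_le_mul_of_nonneg_right (by linarith) hu0
  have hM'3 : (1 + 4 * M₀) * C₅ * (τ * T * ∑ o, kp Y π o * Th o (psi K o)) ≤
      ((1 + 4 * M₀) + (1 + C₁ * (n * M₀)) + (1 + 4 * M₀) * C₅) *
        (τ * T * ∑ o, kp Y π o * Th o (psi K o)) :=
    mul_le_mul_of_nonneg_right (by linarith)
      (mul_nonneg (mul_nonneg hK.tau0 hT0.le) hThs)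
  have hnn : 0 ≤ (1 + 4 * M₀) * C₅ * (τ * T * ∑ o, kp Y π o * Th o (psi K o)) :=
    mul_nonneg hMC (mul_nonneg (mul_nonneg hK.tau0 hT0.le) hThs)
  refine ⟨?_, hsecond.trans hM'2⟩
  have hfirst : ∑ o, kp Y π o * sh ((1 + 4 * M₀) * τ) o (psi K o) e ≤
      u + (1 + 4 * M₀) * C₅ * (τ * T * ∑ o, kp Y π o * Th o (psi K o)) := by
    set s : ℝ := (1 + 4 * M₀) * τ * T with hs
    have hs0 : 0 ≤ s := mul_nonneg (mul_nonneg (by linarith) hK.tau0) hT0.le
    have hsh : ∀ o, sh ((1 + 4 * M₀) * τ) o (psi K o) e =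
        psi K o (e - s • (Pi.single o 1 : Fin (n + 1) → ℝ)) := by
      intro o
      simp only [sh]
      rw [heT]
    have hle : ∀ o, psi K o (e - s • (Pi.single o 1 : Fin (n + 1) → ℝ)) ≤ psi K o e := by
      intro o
      have h1 := (hfam.sl o).add e (s • (-(Pi.single o 1 : Fin (n + 1) → ℝ)))
      rw [(hfam.sl o).hom s hs0, hfam.zero o, mul_zero, add_zero] at h1
      have h2 : e - s • (Pi.single o 1 : Fin (n + 1) → ℝ) =
          e + s • (-(Pi.single o 1 : Fin (n + 1) → ℝ)) := by
        rw [smul_neg, sub_eq_add_neg]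
      rw [h2]
      exact h1
    simp only [hsh]
    rcases lt_or_ge (τ * T) u with hcase | hcase
    · have h1 : ∀ o, kp Y π o * psi K o (e - s • (Pi.single o 1 : Fin (n + 1) → ℝ)) ≤
          kp Y π o * (τ * T) := by
        intro o
        rcases lt_or_ge (π.symm o).val d with ho | ho
        · rw [hk2 o ho]
          simp
        · refine mul_le_mul_of_nonneg_left ((hle o).trans ?_) (hk5 o)
          have h2 := hbd2 o e (fun p => emb_nonneg π ht p) (emb_out π t ho)
          rwa [heT] at h2
      have h2 : ∑ o, kp Y π o * psi K o (e - s • (Pi.single o 1 : Fin (n + 1) → ℝ)) ≤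
          ∑ o, kp Y π o * (τ * T) := Finset.sum_le_sum fun o _ => h1 o
      rw [← Finset.sum_mul, hk3, one_mul] at h2
      linarith
    · rcases eq_or_lt_of_le hK.tau0 with h0 | hτ
      · have hu1 : u = 0 := by
          rw [← h0, zero_mul] at hcase
          exact le_antisymm hcase hu0
        have h1 : ∑ o, kp Y π o * psi K o (e - s • (Pi.single o 1 : Fin (n + 1) → ℝ)) ≤
            ∑ o, kp Y π o * psi K o e :=
          Finset.sum_le_sum fun o _ => mul_le_mul_of_nonneg_left (hle o) (hk5 o)
        rw [hu1, mul_zero] at hsecond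
        rw [hu1]
        linarith
      · have hs1 : 0 < s := mul_pos (mul_pos (by linarith) hτ) hT0
        have hws : 2 * (M₀ * u) ≤ s / 2 := by
          have h1 : M₀ * u ≤ M₀ * (τ * T) := mul_le_mul_of_nonneg_left hcase hM₀
          have h2 : 0 ≤ τ * T := mul_nonneg hτ.le hT0.le
          have h3 : s = τ * T + 4 * (M₀ * (τ * T)) := by
            rw [hs]
            ring
          linarith
        have hmain : ∀ o, psi K o (e - s • (Pi.single o 1 : Fin (n + 1) → ℝ)) ≤
            psi K o (li x) + s * (C₅ * Th o (psi K o)) := by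
          intro o
          have h1 := (hfam.sl o).add (li x) (e - li x - s • (Pi.single o 1 : Fin (n + 1) → ℝ))
          have h2 : li x + (e - li x - s • (Pi.single o 1 : Fin (n + 1) → ℝ)) =
              e - s • (Pi.single o 1 : Fin (n + 1) → ℝ) := by
            abel
          rw [h2, hshift o] at h1
          -- the vector `b`
          let b : Fin n → ℝ := fun l => 1 + (li w (o.succAbove l) - li w o) / s
          have hb : li w - s • (Pi.single o 1 : Fin (n + 1) → ℝ) +
              (fun _ => s - li w o) =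
              s • (o.insertNth (α := fun _ => ℝ) 0 b : Fin (n + 1) → ℝ) := by
            funext l
            refine Fin.succAboveCases o ?_ (fun i => ?_) l
            · simp
            · simp only [Pi.add_apply, Pi.sub_apply, Pi.smul_apply, smul_eq_mul,
                Fin.insertNth_apply_succAbove, b]
              rw [Pi.single_eq_of_ne (Fin.succAbove_ne o i)]
              field_simp
              ring
          have hb2 : psi K o (li w - s • (Pi.single o 1 : Fin (n + 1) → ℝ)) =
              s * psi K o (o.insertNth (α := fun _ => ℝ) 0 b) := by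
            rw [← (hfam.sl o).hom s hs0, ← hb, hfam.inv o]
          have hb3 : ∀ l, 1 / 2 ≤ b l ∧ b l ≤ 3 / 2 := by
            intro l
            have h3 : |li w (o.succAbove l) - li w o| ≤ s / 2 := by
              have h4 := abs_sub (li w (o.succAbove l)) (li w o)
              have h5 := hliw (o.succAbove l)
              have h6 := hliw o
              linarith
            have h4 : |(li w (o.succAbove l) - li w o) / s| ≤ 1 / 2 := by
              rw [abs_div, abs_of_pos hs1, div_le_iff₀ hs1]
              linarith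
            have h5 := abs_le.1 h4
            constructor
            · show 1 / 2 ≤ 1 + (li w (o.succAbove l) - li w o) / s
              linarith [h5.1]
            · show 1 + (li w (o.succAbove l) - li w o) / s ≤ 3 / 2
              linarith [h5.2]
          have hb4 : psi K o (o.insertNth (α := fun _ => ℝ) 0 b) ≤ C₅ * Th o (psi K o) :=
            hx5 (fun b => psi K o (o.insertNth (α := fun _ => ℝ) 0 b)) (sl_ins o (hfam.sl o)) b hb3
          rw [hb2] at h1
          have h7 := mul_le_mul_of_nonneg_left hb4 hs0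
          linarith
        calc ∑ o, kp Y π o * psi K o (e - s • (Pi.single o 1 : Fin (n + 1) → ℝ))
            ≤ ∑ o, kp Y π o * (psi K o (li x) + s * (C₅ * Th o (psi K o))) :=
              Finset.sum_le_sum fun o _ => mul_le_mul_of_nonneg_left (hmain o) (hk5 o)
          _ = u + (1 + 4 * M₀) * C₅ * (τ * T * ∑ o, kp Y π o * Th o (psi K o)) := by
              simp only [mul_add, Finset.sum_add_distrib]
              rw [hsum, Finset.mul_sum, Finset.mul_sum]
              congr 1
              refine Finset.sum_congr rfl fun o _ => ?_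
              rw [hs]
              ring
  have hring : ((1 + 4 * M₀) + (1 + C₁ * (n * M₀)) + (1 + 4 * M₀) * C₅) *
        (τ * T * ∑ o, kp Y π o * Th o (psi K o)) =
      ((1 + 4 * M₀) + (1 + C₁ * (n * M₀)) + (1 + 4 * M₀) * C₅) * τ * T *
        ∑ o, kp Y π o * Th o (psi K o) := by ring
  rw [← hring]
  linarith

end Pool.Agent.Helper88.LQ
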